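import Mathlib
import Pool.Agent.H96toe.Meas

/-!
# MP_6420b1_an: a Toeplitz system which is partially rigid and not rigid

There is a binary Toeplitz sequence such that every invariant probability measure of its orbit
closure (in particular every ergodic one, and there are ergodic ones) is partially rigid and not
rigid. The sequence is a sparse modification of the Thue-Morse sequence.
-/

set_option autoImplicit false

open MeasureTheory Filter Topology

namespace Pool.Agent.Results.MP_6420b1_an.PartiallyRigidToeplitz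

/-- The left shift on two-sided sequences. -/
def shift {A : Type} (y : ℤ → A) : ℤ → A := fun i => y (i + 1)

/-- Toeplitz sequences: not periodic, and every position `n` lies in an arithmetic progression
`n + p ℤ` on which the sequence is constant. -/
def IsToeplitz {A : Type} (x : ℤ → A) : Prop :=
  (¬ ∃ p : ℕ, 0 < p ∧ ∀ i : ℤ, x (i + p) = x i) ∧
    ∀ n : ℤ, ∃ p : ℕ, 0 < p ∧ ∀ k : ℤ, x (n + k * p) = x n

/-- The orbit closure of `x` under the shift and its inverse. -/
def orbitClosure {A : Type} [TopologicalSpace A] (x : ℤ → A) : Set (ℤ → A) :=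
  closure {y | ∃ m : ℤ, ∀ i, y i = x (i + m)}

/-- Measure-theoretic rigidity of the shift with respect to `μ`. -/
def Rigid {A : Type} [MeasurableSpace A] (μ : Measure (ℤ → A)) : Prop :=
  ∃ n : ℕ → ℕ, Tendsto n atTop atTop ∧ ∀ B : Set (ℤ → A), MeasurableSet B →
    Tendsto (fun k => μ (shift^[n k] '' B ∩ B)) atTop (𝓝 (μ B))

/-- Partial rigidity of the shift with respect to `μ`. -/
def PartiallyRigid {A : Type} [MeasurableSpace A] (μ : Measure (ℤ → A)) : Prop :=
  ∃ δ : ℝ, 0 < δ ∧ ∃ n : ℕ → ℕ, Tendsto n atTop atTop ∧ ∀ B : Set (ℤ → A), MeasurableSet B →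
    ENNReal.ofReal δ * μ B ≤ liminf (fun k => μ (shift^[n k] '' B ∩ B)) atTop

open Pool.Agent.H96toe

lemma shift_eq : (shift : (ℤ → Bool) → (ℤ → Bool)) = sh := rfl

/-- the inverse of the `n`-th power of the shift -/
def bk (n : ℕ) (y : ℤ → Bool) : ℤ → Bool := fun i => y (i - n)

lemma measurable_bk (n : ℕ) : Measurable (bk n) :=
  (continuous_pi fun i => continuous_apply (i - (n : ℤ))).measurable

lemma image_eq (n : ℕ) (E : Set (ℤ → Bool)) : sh^[n] '' E = bk n ⁻¹' E := by
  ext y
  constructor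
  · rintro ⟨z, hz, rfl⟩
    have : bk n (sh^[n] z) = z := by
      funext i
      rw [bk, sh_iter]
      congr 1
      ring
    rw [Set.mem_preimage, this]
    exact hz
  · intro hy
    refine ⟨bk n y, hy, ?_⟩
    funext i
    rw [sh_iter, bk]
    congr 1
    ring

lemma measure_image {μ : Measure (ℤ → Bool)} (hμ : MeasurePreserving sh μ μ) (n : ℕ)
    {B : Set (ℤ → Bool)} (hB : MeasurableSet B) :
    μ (sh^[n] '' B ∩ B) = μ (B ∩ sh^[n] ⁻¹' B) := by
  have hm : Measurable (sh^[n]) := measurable_sh.iterate n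
  have h1 : sh^[n] '' B ∩ B = sh^[n] '' (B ∩ sh^[n] ⁻¹' B) := (Set.image_inter_preimage _ _ _).symm
  have hE : MeasurableSet (B ∩ sh^[n] ⁻¹' B) := hB.inter (hm hB)
  rw [h1]
  have h2 : MeasurableSet (sh^[n] '' (B ∩ sh^[n] ⁻¹' B)) := by
    rw [image_eq]
    exact measurable_bk n hE
  rw [← (hμ.iterate n).measure_preimage h2.nullMeasurableSet]
  congr 1
  apply Set.preimage_image_eq
  intro y z h
  have := congrArg (bk n) h
  have hb : ∀ w, bk n (sh^[n] w) = w := by
    intro w
    funext i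
    rw [bk, sh_iter]
    congr 1
    ring
  rwa [hb, hb] at this

section
variable {μ : Measure (ℤ → Bool)} [IsProbabilityMeasure μ]

/-- cylinder sets depend on finitely many coordinates -/
lemma exists_radius {t : Set (ℤ → Bool)} (ht : t ∈ measurableCylinders (fun _ : ℤ => Bool)) :
    ∃ R : ℕ, ∀ y z : ℤ → Bool, (∀ i : ℤ, |i| ≤ R → y i = z i) → (y ∈ t ↔ z ∈ t) := by
  obtain ⟨s, S, hS, rfl⟩ := (mem_measurableCylinders t).1 ht
  refine ⟨s.sup Int.natAbs, fun y z h => ?_⟩
  rw [mem_cylinder, mem_cylinder]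
  have : s.restrict y = s.restrict z := by
    funext i
    apply h
    have h1 : Int.natAbs i.1 ≤ s.sup Int.natAbs := Finset.le_sup (f := Int.natAbs) i.2
    have h2 : |i.1| = (Int.natAbs i.1 : ℤ) := (Int.natCast_natAbs i.1).symm
    rw [h2]
    exact_mod_cast h1
  rw [this]

lemma real_partial (hμ : MeasurePreserving sh μ μ) (hY : ∀ k, ∀ᵐ y ∂μ, y ∈ YY k)
    {B : Set (ℤ → Bool)} (hB : MeasurableSet B) (ε : ℝ) (hε : 0 < ε) :
    ∀ᶠ k in atTop, 1 / 5 * μ.real B - 4 * ε ≤ μ.real (B ∩ sh^[ll k] ⁻¹' B) := by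
  have hdense : μ.MeasureDense (measurableCylinders (fun _ : ℤ => Bool)) :=
    Measure.MeasureDense.of_generateFrom_isSetAlgebra_finite μ isSetAlgebra_measurableCylinders
      generateFrom_measurableCylinders.symm
  obtain ⟨t, ht, htε⟩ := hdense.approx B hB (measure_ne_top _ _) ε hε
  obtain ⟨R, hR⟩ := exists_radius ht
  have htm : MeasurableSet t := hdense.measurable t ht
  have hd : μ.real (symmDiff B t) ≤ ε := by
    unfold Measure.real
    exact (ENNReal.toReal_le_of_le_ofReal hε.le htε.le)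
  obtain ⟨K, hK⟩ := exists_nat_gt ((R : ℝ) / ε)
  filter_upwards [eventually_ge_atTop K] with k hk
  have h1 := rep_prob hμ hY t htm R hR k
  have hl : (0 : ℝ) < ll k := by exact_mod_cast ll_pos k
  have h2 : (R : ℝ) / ll k ≤ ε := by
    rw [div_lt_iff₀ hε] at hK
    rw [div_le_iff₀ hl]
    have h3 : (K : ℝ) ≤ ll k := by exact_mod_cast hk.trans (lt_ll k).le
    nlinarith
  have hm : Measurable (sh^[ll k]) := measurable_sh.iterate _
  -- compare `B` and `t`
  have h3 : μ.real B ≤ μ.real t + ε := by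
    have : B ⊆ t ∪ symmDiff B t := by
      intro y hy
      by_cases hyt : y ∈ t
      · exact Or.inl hyt
      · exact Or.inr (Or.inl ⟨hy, hyt⟩)
    calc μ.real B ≤ μ.real (t ∪ symmDiff B t) := measureReal_mono this
      _ ≤ μ.real t + μ.real (symmDiff B t) := measureReal_union_le _ _
      _ ≤ _ := by linarith
  have h4 : μ.real (t ∩ sh^[ll k] ⁻¹' t) ≤ μ.real (B ∩ sh^[ll k] ⁻¹' B) + ε + ε := by
    have hsub : t ∩ sh^[ll k] ⁻¹' t ⊆ ((B ∩ sh^[ll k] ⁻¹' B) ∪ symmDiff B t) ∪
        sh^[ll k] ⁻¹' (symmDiff B t) := by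
      rintro y ⟨hy1, hy2⟩
      by_cases h1 : y ∈ B
      · by_cases h2 : sh^[ll k] y ∈ B
        · exact Or.inl (Or.inl ⟨h1, h2⟩)
        · exact Or.inr (Or.inr ⟨hy2, h2⟩)
      · exact Or.inl (Or.inr (Or.inr ⟨hy1, h1⟩))
    have hpre : μ.real (sh^[ll k] ⁻¹' (symmDiff B t)) = μ.real (symmDiff B t) := by
      unfold Measure.real
      rw [(hμ.iterate _).measure_preimage (hB.symmDiff htm).nullMeasurableSet]
    calc μ.real (t ∩ sh^[ll k] ⁻¹' t) ≤ μ.real (((B ∩ sh^[ll k] ⁻¹' B) ∪ symmDiff B t) ∪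
        sh^[ll k] ⁻¹' (symmDiff B t)) := measureReal_mono hsub
      _ ≤ μ.real ((B ∩ sh^[ll k] ⁻¹' B) ∪ symmDiff B t) +
          μ.real (sh^[ll k] ⁻¹' (symmDiff B t)) := measureReal_union_le _ _
      _ ≤ (μ.real (B ∩ sh^[ll k] ⁻¹' B) + μ.real (symmDiff B t)) +
          μ.real (sh^[ll k] ⁻¹' (symmDiff B t)) := by
            gcongr
            exact measureReal_union_le _ _
      _ ≤ _ := by rw [hpre]; linarith
  linarith

lemma partiallyRigid (hμ : MeasurePreserving sh μ μ) (hY : ∀ k, ∀ᵐ y ∂μ, y ∈ YY k) :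
    PartiallyRigid μ := by
  refine ⟨1 / 5, by norm_num, ll, ?_, fun B hB => ?_⟩
  · exact tendsto_atTop_mono (fun k => (lt_ll k).le) tendsto_id
  rw [shift_eq]
  simp_rw [measure_image hμ _ hB]
  have e1 : ENNReal.ofReal (1 / 5) * μ B = ENNReal.ofReal (1 / 5 * μ.real B) := by
    rw [ENNReal.ofReal_mul (by norm_num), ofReal_measureReal]
  rw [e1]
  have key : ∀ ε : ℝ, 0 < ε → ENNReal.ofReal (1 / 5 * μ.real B - 4 * ε) ≤
      liminf (fun k => μ (B ∩ sh^[ll k] ⁻¹' B)) atTop := by
    intro ε hε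
    refine le_liminf_of_le (by isBoundedDefault) ?_
    filter_upwards [real_partial hμ hY hB ε hε] with k hk
    rw [← ofReal_measureReal (μ := μ) (s := B ∩ sh^[ll k] ⁻¹' B)]
    exact ENNReal.ofReal_le_ofReal hk
  have hlim : Tendsto (fun ε : ℝ => ENNReal.ofReal (1 / 5 * μ.real B - 4 * ε)) (𝓝[>] 0)
      (𝓝 (ENNReal.ofReal (1 / 5 * μ.real B - 4 * 0))) := by
    refine (ENNReal.continuous_ofReal.tendsto _).comp ?_
    refine Tendsto.mono_left ?_ nhdsWithin_le_nhds
    exact (Continuous.tendsto (by fun_prop) 0)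
  rw [mul_zero, sub_zero] at hlim
  refine le_of_tendsto hlim ?_
  filter_upwards [self_mem_nhdsWithin] with ε hε
  exact key ε hε

lemma not_rigid (hμ : MeasurePreserving sh μ μ) (hY : ∀ k, ∀ᵐ y ∂μ, y ∈ YY k) :
    ¬ Rigid μ := by
  rintro ⟨n, hn, hr⟩
  set B : Set (ℤ → Bool) := {y | y 0 = true} with hBdef
  have hB : MeasurableSet B := by
    have : B = (fun y : ℤ → Bool => y 0) ⁻¹' {true} := rfl
    rw [this]
    exact measurable_pi_apply 0 (measurableSet_singleton _)
  have h1 := hr B hB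
  rw [shift_eq] at h1
  simp_rw [measure_image hμ _ hB] at h1
  have h2 : Tendsto (fun k => μ.real (B ∩ sh^[n k] ⁻¹' B)) atTop (𝓝 (μ.real B)) :=
    (ENNReal.tendsto_toReal (measure_ne_top _ _)).comp h1
  -- probability of different letters
  have h3 : ∀ m : ℕ, ∫ y, df (y 0) (y m) ∂μ =
      2 * (μ.real B - μ.real (B ∩ sh^[m] ⁻¹' B)) := by
    intro m
    have hm : Measurable (sh^[m]) := measurable_sh.iterate _
    have e1 : (fun y : ℤ → Bool => df (y 0) (y m)) = fun y =>
        ind B y + ind (sh^[m] ⁻¹' B) y - 2 * ind (B ∩ sh^[m] ⁻¹' B) y := by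
      funext y
      have hy : y ∈ sh^[m] ⁻¹' B ↔ y m = true := by
        rw [Set.mem_preimage, hBdef, Set.mem_ofPred_eq, sh_iter, zero_add]
      unfold ind df
      by_cases a : y 0 = true <;> by_cases b : y m = true
      · have a1 : y ∈ B := a
        have b1 := hy.2 b
        rw [if_pos (a.trans b.symm), Set.indicator_of_mem a1, Set.indicator_of_mem b1,
          Set.indicator_of_mem (Set.mem_inter a1 b1)]
        norm_num
      · have a1 : y ∈ B := a
        have b1 : y ∉ sh^[m] ⁻¹' B := fun h => b (hy.1 h)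
        rw [if_neg (fun h => b (h.symm.trans a)), Set.indicator_of_mem a1,
          Set.indicator_of_notMem b1, Set.indicator_of_notMem (fun h => b1 h.2)]
        norm_num
      · have a1 : y ∉ B := a
        have b1 := hy.2 b
        rw [if_neg (fun h => a (h.trans b)), Set.indicator_of_notMem a1,
          Set.indicator_of_mem b1, Set.indicator_of_notMem (fun h => a1 h.1)]
        norm_num
      · have a1 : y ∉ B := a
        have b1 : y ∉ sh^[m] ⁻¹' B := fun h => b (hy.1 h)
        have a2 : y 0 = false := by simpa using a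
        have b2 : y m = false := by simpa using b
        rw [if_pos (a2.trans b2.symm), Set.indicator_of_notMem a1,
          Set.indicator_of_notMem b1, Set.indicator_of_notMem (fun h => a1 h.1)]
        norm_num
    have hint : ∀ t : Set (ℤ → Bool), MeasurableSet t → Integrable (ind t) μ := by
      intro t ht
      refine Integrable.of_bound (C := 1)
        (measurable_const.indicator ht : Measurable (ind t)).aestronglyMeasurable
        (ae_of_all _ fun y => ?_)
      rw [Real.norm_eq_abs, abs_of_nonneg (ind_nonneg _ _)]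
      exact ind_le_one _ _
    have hval : ∀ t : Set (ℤ → Bool), MeasurableSet t → ∫ y, ind t y ∂μ = μ.real t := by
      intro t ht
      unfold ind
      rw [integral_indicator_const _ ht]
      simp
    have hpm := hm hB
    have e2 : ∫ y, (ind B y + ind (sh^[m] ⁻¹' B) y - 2 * ind (B ∩ sh^[m] ⁻¹' B) y) ∂μ =
        ∫ y, (ind B y + ind (sh^[m] ⁻¹' B) y) ∂μ - ∫ y, 2 * ind (B ∩ sh^[m] ⁻¹' B) y ∂μ :=
      integral_sub ((hint B hB).add (hint _ hpm)) ((hint _ (hB.inter hpm)).const_mul _)
    rw [e1, e2, integral_add (hint B hB) (hint _ hpm), integral_const_mul, hval _ hB, hval _ hpm,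
      hval _ (hB.inter hpm)]
    have : μ.real (sh^[m] ⁻¹' B) = μ.real B := by
      unfold Measure.real
      rw [(hμ.iterate _).measure_preimage hB.nullMeasurableSet]
    rw [this]
    ring
  have h4 : Tendsto (fun k => 2 * (μ.real B - μ.real (B ∩ sh^[n k] ⁻¹' B))) atTop
      (𝓝 (2 * (μ.real B - μ.real B))) := (tendsto_const_nhds.sub h2).const_mul 2
  rw [sub_self, mul_zero] at h4
  have h5 : ∀ᶠ k in atTop, (1 / 4 : ℝ) ≤ 2 * (μ.real B - μ.real (B ∩ sh^[n k] ⁻¹' B)) := by
    filter_upwards [hn.eventually_ge_atTop 1] with k hk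
    rw [← h3]
    exact diff_prob hμ hY (n k) hk
  have h6 := ge_of_tendsto h4 h5
  norm_num at h6

end

lemma ae_YY {μ : Measure (ℤ → Bool)} (h : μ (orbitClosure xx)ᶜ = 0) (k : ℕ) :
    ∀ᵐ y ∂μ, y ∈ YY k := by
  rw [ae_iff]
  refine measure_mono_null ?_ h
  intro y hy hy2
  exact hy (OC_subset k hy2)

lemma exists_erg : ∃ μ : Measure (ℤ → Bool), IsProbabilityMeasure μ ∧
    μ (orbitClosure xx)ᶜ = 0 ∧ Ergodic shift μ := by
  obtain ⟨μ, h1, h2, h3⟩ := exists_ergodic ⟨sh, continuous_sh⟩
    (F := orbitClosure xx) isClosed_closure xx (fun i => by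
      apply subset_closure
      refine ⟨i, fun j => ?_⟩
      change sh^[i] xx j = _
      rw [sh_iter])
  exact ⟨μ, h1, h3, h2⟩

/-- There is a binary Toeplitz sequence `x` whose orbit closure carries an ergodic probability
measure, and all of whose invariant probability measures on the orbit closure are partially rigid
and not rigid. -/
theorem result : ∃ x : ℤ → Bool, IsToeplitz x ∧
    (∃ μ : Measure (ℤ → Bool), IsProbabilityMeasure μ ∧ μ (orbitClosure x)ᶜ = 0 ∧
      Ergodic shift μ) ∧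
    ∀ μ : Measure (ℤ → Bool), IsProbabilityMeasure μ → μ (orbitClosure x)ᶜ = 0 →
      MeasurePreserving shift μ μ → PartiallyRigid μ ∧ ¬ Rigid μ := by
  refine ⟨xx, ⟨?_, xx_toeplitz⟩, exists_erg, ?_⟩
  · rintro ⟨p, hp, hper⟩
    obtain ⟨μ, h1, h2, h3⟩ := exists_erg
    have h4 := diff_prob (μ := μ) h3.toMeasurePreserving (ae_YY h2) p hp
    have h5 : ∀ᵐ y ∂μ, df (y 0) (y p) = 0 := by
      rw [ae_iff]
      refine measure_mono_null ?_ h2
      intro y hy hy2
      apply hy
      have h6 : orbitClosure xx ⊆ {y : ℤ → Bool | y (p : ℤ) = y 0} := by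
        refine closure_minimal ?_ (isClosed_eq (continuous_apply _) (continuous_apply _))
        rintro z ⟨m, hm⟩
        change z p = z 0
        rw [hm, hm, ← hper (0 + m)]
        congr 1
        ring
      have h7 : y (p : ℤ) = y 0 := h6 hy2
      unfold df
      rw [if_pos h7.symm]
    rw [integral_congr_ae (g := fun _ => (0 : ℝ)) h5] at h4
    simp at h4
    norm_num at h4
  · intro μ h1 h2 h3
    exact ⟨partiallyRigid h3 (ae_YY h2), not_rigid h3 (ae_YY h2)⟩

end Pool.Agent.Results.MP_6420b1_an.PartiallyRigidToeplitz
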